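import Pool.Agent.W643.OddPair.Main

/-!
# Invertible matrices over integral group rings and odd group cocycles

Let `G` be a torsion-free group, `u` an invertible matrix over `ℤ[G]` with inverse `v`, `n ≥ 1`,
and `F` an alternating homogeneous `(2n+1)`-cocycle of `G` with values in `ℤ`.  Then

`∑ tr (v_{g_0} u_{g_1} v_{g_2} ⋯ u_{g_{2n+1}}) F (1, g_0, g_0 g_1, …, g_0 ⋯ g_{2n}) = 0`,

the sum over all `g_0, …, g_{2n+1}` with product `1`, where `u = ∑ u_g g` and `v = ∑ v_g g` with
integral matrices `u_g`, `v_g`.  This is the pairing of the class of `u` in `K_1(ℤG)` with the class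
of `F` in `H^{2n+1}(G)`, through the component at the conjugacy class of `1` of the odd
Chern-Connes character.

In general let `G` be any group, `S` a set of primes `p` such that `G` has no element of order `p`,
and `M` an abelian group in which every nonzero element fails to be divisible by infinitely many
members of `S`.  Then the pairings of `u` with the `M`-valued alternating `(2n+1)`-cocycles, `n ≥ 0`,
are those of a single element `γ` of `G` (which depends on `u` and `v` only); for `n ≥ 1` they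
vanish, and for `n = 0` they are `F (1, γ⁻¹)`.
-/

set_option autoImplicit false

namespace Pool.Agent.Results.MP_16fe43_al.OddCocyclePairing

open Pool.Agent.H290R4.Coc Pool.Agent.W643.OddPair

universe u1 u2 u3

theorem result :
    (∀ (G : Type u1) [Group G] (d : Type u2) [Fintype d] [DecidableEq d]
      (u v : Matrix d d (MonoidAlgebra ℤ G)), u * v = 1 → v * u = 1 →
      ∃ γ : G, ∀ S : Set ℕ, (∀ p ∈ S, p.Prime ∧ ∀ g : G, g ^ p = 1 → g = 1) →
        ∀ (M : Type u3) [AddCommGroup M],
          (∀ x : M, x ≠ 0 → {p : ℕ | p ∈ S ∧ ¬ ∃ y : M, p • y = x}.Infinite) →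
        ∀ (n : ℕ) (F : List G → M), Coy (2 * n + 1) F →
          (n = 0 → oddPairing F 0 u v = F [1, γ⁻¹]) ∧ (1 ≤ n → oddPairing F n u v = 0)) ∧
    (∀ (G : Type u1) [Group G], (∀ g : G, g ≠ 1 → ∀ m : ℕ, 1 ≤ m → g ^ m ≠ 1) →
      ∀ (d : Type u2) [Fintype d] [DecidableEq d] (u v : Matrix d d (MonoidAlgebra ℤ G)),
        u * v = 1 → v * u = 1 → ∀ n : ℕ, 1 ≤ n → ∀ F : List G → ℤ, Coy (2 * n + 1) F →
          oddPairing F n u v = 0) := by
  refine ⟨fun G _ d _ _ u v huv hvu => main u v huv hvu, ?_⟩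
  intro G _ hG d _ _ u v huv hvu n hn F hF
  obtain ⟨γ, hγ⟩ := main u v huv hvu
  refine (hγ {p | p.Prime} ?_ ℤ ?_ n F hF).2 hn
  · intro p hp
    refine ⟨hp, fun g hg => ?_⟩
    by_contra hne
    exact hG g hne p hp.one_lt.le hg
  · intro x hx
    refine Set.infinite_of_forall_exists_gt fun a => ?_
    obtain ⟨p, hp1, hp2⟩ := Nat.exists_infinite_primes (a + x.natAbs + 1)
    refine ⟨p, ⟨hp2, ?_⟩, by omega⟩
    rintro ⟨y, hy⟩
    apply hx
    rw [nsmul_eq_mul] at hy
    refine Int.eq_zero_of_abs_lt_dvd ⟨y, hy.symm⟩ ?_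
    rw [Int.abs_eq_natAbs]
    exact_mod_cast (show x.natAbs < p by omega)

end Pool.Agent.Results.MP_16fe43_al.OddCocyclePairing
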